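import Mathlib
import Pool.Agent.Lib.MP_699f60_co.Tri

set_option autoImplicit false

namespace Pool.Agent.Results.MP_699f60_co.UniquelyLocalizable

variable {V : Type*}

/-- A placement `p` is generic if its `2|V|` coordinates are algebraically independent
over `ℚ`. -/
def IsGeneric (p : V → EuclideanSpace ℝ (Fin 2)) : Prop :=
  AlgebraicIndependent ℚ (fun x : V × Fin 2 => p x.1 x.2)

/-- The frameworks `(G, p)` and `(G, q)` are equivalent. -/
def EquivalentFrameworks (G : SimpleGraph V) (p q : V → EuclideanSpace ℝ (Fin 2)) : Prop :=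
  ∀ u w, G.Adj u w → dist (p u) (p w) = dist (q u) (q w)

/-- `v` is uniquely localizable in `(G, p)` relative to `P`. -/
def LocalizableIn (G : SimpleGraph V) (p : V → EuclideanSpace ℝ (Fin 2)) (P : Finset V)
    (v : V) : Prop :=
  ∀ q : V → EuclideanSpace ℝ (Fin 2), EquivalentFrameworks G p q → (∀ x ∈ P, q x = p x) →
    q v = p v

/-- `v` is uniquely localizable in `G` relative to `P`. -/
def Localizable (G : SimpleGraph V) (P : Finset V) (v : V) : Prop :=
  ∀ p : V → EuclideanSpace ℝ (Fin 2), IsGeneric p → LocalizableIn G p P v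

/-- `G + K(P)`: add all missing edges joining two vertices of `P`. -/
def addClique (G : SimpleGraph V) (P : Finset V) : SimpleGraph V where
  Adj x y := G.Adj x y ∨ (x ≠ y ∧ x ∈ P ∧ y ∈ P)
  symm := ⟨by
    rintro x y (h | ⟨h1, h2, h3⟩)
    · exact Or.inl h.symm
    · exact Or.inr ⟨h1.symm, h3, h2⟩⟩
  loopless := ⟨by
    rintro x (h | h)
    · exact G.loopless.irrefl x h
    · exact h.1 rfl⟩

/-- The row of the rigidity matrix of `p` indexed by the pair `e = uw`: it has `p u - p w` in
the two columns of `u`, `p w - p u` in those of `w`, and zeros elsewhere. -/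
noncomputable def rigidityRow [DecidableEq V] (p : V → EuclideanSpace ℝ (Fin 2)) (e : Sym2 V) :
    V × Fin 2 → ℝ :=
  Sym2.lift ⟨fun u w z => (if z.1 = u then p u z.2 - p w z.2 else 0)
    + (if z.1 = w then p w z.2 - p u z.2 else 0), by
    intro u w
    funext z
    exact add_comm _ _⟩ e

/-- The set `F` of pairs is independent in the generic rigidity matroid: its rows are linearly
independent for generic `p`. -/
def R2Independent [DecidableEq V] (F : Set (Sym2 V)) : Prop :=
  ∀ p : V → EuclideanSpace ℝ (Fin 2), IsGeneric p → LinearIndepOn ℝ (rigidityRow p) F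

/-- `C` is a circuit of the matroid `R_2(G)`: a minimal dependent set of edges of `G`. -/
def IsR2Circuit [DecidableEq V] (G : SimpleGraph V) (C : Set (Sym2 V)) : Prop :=
  C ⊆ G.edgeSet ∧ ¬ R2Independent C ∧ ∀ D, D ⊂ C → R2Independent D

/-- `F` is (the edge set of) an `R_2`-component of `G`: a class of the relation
'equal or lying in a common circuit' on the edges of `G`. -/
def IsR2Component [DecidableEq V] (G : SimpleGraph V) (F : Set (Sym2 V)) : Prop :=
  ∃ e ∈ G.edgeSet, F = {f | f ∈ G.edgeSet ∧ (e = f ∨ ∃ C, IsR2Circuit G C ∧ e ∈ C ∧ f ∈ C)}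

/-- The vertex set of the subgraph with edge set `F`. -/
def vertexSet (F : Set (Sym2 V)) : Set V := {x | ∃ e ∈ F, x ∈ e}

/-- `κ_H(x, y)`: the largest number of pairwise openly disjoint `x`-`y` paths in `H`. -/
noncomputable def kappa (H : SimpleGraph V) (x y : V) : ℕ :=
  sSup {k : ℕ | ∃ w : Fin k → H.Path x y, Function.Injective w ∧
    ∀ i j, i ≠ j → ∀ z, z ∈ (w i : H.Walk x y).support → z ∈ (w j : H.Walk x y).support →
      z = x ∨ z = y}

open Pool.Agent.Lib.MP_699f60_co in
theorem result {V : Type*} [Fintype V] [DecidableEq V] (G : SimpleGraph V) (P : Finset V)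
    (v : V) (hv : v ∉ P) (h : Localizable G P v) :
    3 ≤ P.card ∧ ∃ F : Set (Sym2 V), IsR2Component (addClique G P) F ∧
      (∀ b ∈ P, b ∈ vertexSet F) ∧ v ∈ vertexSet F ∧
      ∀ b ∈ P, 3 ≤ kappa (SimpleGraph.fromEdgeSet F) v b := by
  -- conversion of placements
  obtain ⟨toE, htoE⟩ : ∃ toE : ℂ → EuclideanSpace ℝ (Fin 2),
      toE = fun z => !₂[z.re, z.im] := ⟨_, rfl⟩
  have hE0 : ∀ z, toE z 0 = z.re := by intro z; rw [htoE]; rfl
  have hE1 : ∀ z, toE z 1 = z.im := by intro z; rw [htoE]; rfl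
  have hdist : ∀ z w, dist (toE z) (toE w) = Real.sqrt (Complex.normSq (z - w)) := by
    intro z w
    rw [EuclideanSpace.dist_eq, Fin.sum_univ_two, hE0, hE0, hE1, hE1]
    congr 1
    rw [Real.dist_eq, Real.dist_eq, sq_abs, sq_abs, Complex.normSq_apply, Complex.sub_re,
      Complex.sub_im]
    ring
  have hinj : ∀ z w, toE z = toE w → z = w := by
    intro z w hzw
    apply Complex.ext
    · rw [← hE0, ← hE0, hzw]
    · rw [← hE1, ← hE1, hzw]
  have hcoord : ∀ p : V → ℂ, (fun x : V × Fin 2 => toE (p x.1) x.2) = coord p := by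
    intro p
    funext ⟨x, k⟩
    fin_cases k
    · exact hE0 _
    · exact hE1 _
  have hgen : ∀ p : V → ℂ, Generic p → IsGeneric (fun x => toE (p x)) := by
    intro p hp
    unfold IsGeneric
    rw [hcoord]
    exact hp
  -- localizability
  have hLoc : Loc (addClique G P).edgeSet P v := by
    intro p q hp hPq hq
    apply hinj
    apply h (fun x => toE (p x)) (hgen p hp) (fun x => toE (q x))
    · intro x y hxy
      rw [hdist, hdist, hq x y ((SimpleGraph.mem_edgeSet _).mpr (Or.inl hxy))]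
    · intro x hx
      rw [hPq x hx]
  -- independence
  have hrow : ∀ p : V → EuclideanSpace ℝ (Fin 2),
      rigidityRow p = rowR (coord (fun x => (⟨p x 0, p x 1⟩ : ℂ))) := by
    intro p
    funext e z
    induction e using Sym2.ind with
    | _ x y =>
      obtain ⟨w, k⟩ := z
      fin_cases k <;> rfl
  have hgen' : ∀ p : V → EuclideanSpace ℝ (Fin 2), IsGeneric p →
      Generic (fun x => (⟨p x 0, p x 1⟩ : ℂ)) := by
    intro p hp
    unfold Generic
    have : coord (fun x => (⟨p x 0, p x 1⟩ : ℂ)) = fun x : V × Fin 2 => p x.1 x.2 := by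
      funext ⟨x, k⟩
      fin_cases k <;> rfl
    rw [this]
    exact hp
  obtain ⟨p, -, hp⟩ := exists_generic_near (V := V) 0 Filter.univ_mem
  have hind : ∀ F : Set (Sym2 V), R2Independent F ↔ LinearIndepOn ℝ (SL p) F := by
    intro F
    constructor
    · intro hF
      have h1 := hF (fun x => toE (p x)) (hgen p hp)
      rw [hrow, indep_rows_iff] at h1
      exact indep_generic hp h1
    · intro hF p' hp'
      rw [hrow, indep_rows_iff]
      exact indep_generic (hgen' p' hp') hF
  have hcirc : ∀ C : Set (Sym2 V), IsR2Circuit (addClique G P) C ↔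
      (Mx p).IsCircuit C ∧ C ⊆ (addClique G P).edgeSet := by
    intro C
    have hE : C ⊆ (Mx p).E := by rw [Mx_E]; exact Set.subset_univ _
    rw [Matroid.isCircuit_iff_forall_ssubset]
    unfold IsR2Circuit
    rw [hind, ← Mx_indep, Matroid.not_indep_iff hE]
    constructor
    · rintro ⟨h1, h2, h3⟩
      refine ⟨⟨h2, fun I hI => ?_⟩, h1⟩
      rw [Mx_indep, ← hind]
      exact h3 I hI
    · rintro ⟨⟨h2, h3⟩, h1⟩
      refine ⟨h1, h2, fun I hI => ?_⟩
      rw [hind, ← Mx_indep]
      exact h3 hI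
  have hdiag : ∀ e ∈ (addClique G P).edgeSet, ¬ e.IsDiag := fun e he =>
    (addClique G P).not_isDiag_of_mem_edgeSet he
  obtain ⟨h3, H, hH, hPH, hvH, hk⟩ := main_C hp hdiag hv (by
    intro x hx y hy hxy
    rw [SimpleGraph.mem_edgeSet]
    exact Or.inr ⟨hxy, hx, hy⟩) hLoc
  refine ⟨h3, H, ?_, ?_, ?_, ?_⟩
  · obtain ⟨e, he, rfl⟩ := hH
    refine ⟨e, he, ?_⟩
    ext f
    constructor
    · rintro ⟨h1, h2⟩
      refine ⟨h1, ?_⟩
      rcases h2 with h2 | ⟨C, hC, hCE, h4, h5⟩
      · exact Or.inl h2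
      · exact Or.inr ⟨C, (hcirc C).mpr ⟨hC, hCE⟩, h4, h5⟩
    · rintro ⟨h1, h2⟩
      refine ⟨h1, ?_⟩
      rcases h2 with h2 | ⟨C, hC, h4, h5⟩
      · exact Or.inl h2
      · exact Or.inr ⟨C, ((hcirc C).mp hC).1, ((hcirc C).mp hC).2, h4, h5⟩
  · intro b hb
    exact mem_vs.mp (hPH b hb)
  · exact mem_vs.mp hvH
  · intro b hb
    exact three_le_kappa _ _ _ (hk b hb)

end Pool.Agent.Results.MP_699f60_co.UniquelyLocalizable
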